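import Pool.Agent.Lib.P28F.Main

/-!
Blocks of bounded universal quantifiers in front of quantifier-free formulas which are affine in
the quantified variables (the coefficients are arbitrary terms in the other variables) can be
eliminated in IE₁: every formula obtained from such blocks and from formulas `∀ x < t, θ`, with
`θ` quantifier-free, by conjunction, disjunction and existential quantification is equivalent to
`∃ ȳ, P = Q` with fixed polynomials over the natural numbers, in all models of induction for
bounded existential formulas, hence in all models of bounded induction.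
-/

set_option autoImplicit false

namespace Pool.Agent.Results.MP_28b12e_lc.LinearUniversal

open Pool.Agent.Lib.P28b Pool.Agent.Lib.P28F

theorem result :
    (∀ (M : Type) [Zero M] [One M] [Add M] [Mul M] [LT M], ModelIDelta0 M → ModelIE1 M) ∧
    ∀ (n : ℕ) (φ : Fm n), LinAll φ →
      ∃ (m : ℕ) (P Q : Tm (Fin n ⊕ Fin m)),
        ∀ (M : Type) [Zero M] [One M] [Add M] [Mul M] [LT M], ModelIE1 M →
          ∀ v : Fin n → M,
            φ.sat v ↔ ∃ y : Fin m → M, P.eval (Sum.elim v y) = Q.eval (Sum.elim v y) := by
  refine ⟨fun M _ _ _ _ _ h => ModelIE1.of_delta0 h, ?_⟩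
  intro n φ hφ
  obtain ⟨R, ⟨β, hβ, P, Q, h⟩, hR⟩ := linAll_dio φ hφ (fun i => Tm.var i)
  obtain ⟨m, ⟨e⟩⟩ := Finite.exists_equiv_fin β
  refine ⟨m, P.map (Sum.map id e), Q.map (Sum.map id e), ?_⟩
  intro M _ _ _ _ _ hM v
  have hM' : ModelIE1 (@Mdl.mk M hM.basic.csr hM.basic.lo hM.basic.sor hM.iopen).C := hM
  have key := (hR (@Mdl.mk M hM.basic.csr hM.basic.lo hM.basic.sor hM.iopen) hM' v).trans
    (h (@Mdl.mk M hM.basic.csr hM.basic.lo hM.basic.sor hM.iopen) v)
  refine Iff.trans key ?_
  constructor
  · rintro ⟨y, hy⟩
    refine ⟨fun i => y (e.symm i), ?_⟩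
    rw [Tm.eval_map, Tm.eval_map]
    have h1 : (fun a => Sum.elim v (fun i => y (e.symm i)) (Sum.map id e a)) = Sum.elim v y := by
      funext a
      rcases a with a | a
      · rfl
      · simp
    rw [h1]
    exact hy
  · rintro ⟨y, hy⟩
    refine ⟨fun b => y (e b), ?_⟩
    rw [Tm.eval_map, Tm.eval_map] at hy
    have h1 : (fun a => Sum.elim v y (Sum.map id e a)) = Sum.elim v (fun b => y (e b)) := by
      funext a
      rcases a with a | a
      · rfl
      · simp
    rw [h1] at hy
    exact hy

end Pool.Agent.Results.MP_28b12e_lc.LinearUniversal
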