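import Pool.Agent.Lib.P28b.Dio

/-!
One bounded universal quantifier in front of a quantifier-free formula can be eliminated in open
induction: every formula obtained from quantifier-free formulas and formulas `∀ x < t, θ`, with
`θ` quantifier-free, by conjunction, disjunction and existential quantification is equivalent to
`∃ ȳ, P = Q` with fixed polynomials over the natural numbers, in all models of open induction,
hence in all models of bounded induction.
-/

set_option autoImplicit false

namespace Pool.Agent.Results.MP_28b12e_lc.OneUniversal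

open Pool.Agent.Lib.P28b

theorem result :
    (∀ (M : Type) [Zero M] [One M] [Add M] [Mul M] [LT M], ModelIDelta0 M → ModelIOpen M) ∧
    ∀ (n : ℕ) (φ : Fm n), OneAll φ →
      ∃ (m : ℕ) (P Q : Tm (Fin n ⊕ Fin m)),
        ∀ (M : Type) [Zero M] [One M] [Add M] [Mul M] [LT M], ModelIOpen M →
          ∀ v : Fin n → M,
            φ.sat v ↔ ∃ y : Fin m → M, P.eval (Sum.elim v y) = Q.eval (Sum.elim v y) := by
  refine ⟨fun M _ _ _ _ _ h => h.iopen, ?_⟩
  intro n φ hφ
  obtain ⟨β, hβ, P, Q, h⟩ := Dio.oneAll φ hφ (fun i => Tm.var i)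
  obtain ⟨m, ⟨e⟩⟩ := Finite.exists_equiv_fin β
  refine ⟨m, P.map (Sum.map id e), Q.map (Sum.map id e), ?_⟩
  intro M _ _ _ _ _ hM v
  have key := h (@Mdl.mk M hM.basic.csr hM.basic.lo hM.basic.sor hM) v
  refine Iff.trans key ?_
  constructor
  · rintro ⟨y, hy⟩
    refine ⟨fun i => y (e.symm i), ?_⟩
    rw [Tm.eval_map, Tm.eval_map]
    have h1 : (fun a => Sum.elim v (fun i => y (e.symm i)) (Sum.map id e a)) = Sum.elim v y := by
      funext a
      rcases a with a | a
      · rfl
      · simp
    rw [h1]
    exact hy
  · rintro ⟨y, hy⟩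
    refine ⟨fun b => y (e b), ?_⟩
    rw [Tm.eval_map, Tm.eval_map] at hy
    have h1 : (fun a => Sum.elim v y (Sum.map id e a)) = Sum.elim v (fun b => y (e b)) := by
      funext a
      rcases a with a | a
      · rfl
      · simp
    rw [h1] at hy
    exact hy

end Pool.Agent.Results.MP_28b12e_lc.OneUniversal
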