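import Mathlib
import Pool.Agent.Lib.P28o.Main

/-!
# Oracle worlds for the DPRM theorem in bounded arithmetic

Part 1 (world A): relative to a suitable oracle every bounded formula is equivalent to an existential formula in the standard
model, and this is provable from the true `Π₁`-sentences and the totality of exponentiation; but without exponentiation bounded
formulas are not even equivalent to existential formulas whose matrix is a bounded formula of bounded quantifier rank.
Part 2 (world B): relative to another oracle every bounded formula is equivalent to an existential formula over the true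
`Π₁`-sentences. Part 3: the growth condition of part 1 holds for function symbols of polynomial growth in the length.
-/

set_option autoImplicit false

namespace Pool.Agent.Results.MP_28b12e_lc.OracleWorlds

open Pool.Agent.Lib.P548a

/-- Both answers to the relativized question, in worlds in which the two known facts hold. -/
theorem result :
    (∀ (ι : Type) [Countable ι] (F : ι → ℕ → ℕ), (∀ i, Monotone (F i)) → Subexp F →
      ∃ A : ℕ → Bool,
        (∀ (n : ℕ) (φ : Fm ι n), φ.Bounded → ∃ t : Tm ι (Fin (n + 1)),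
          (∀ v : Fin n → ℕ, φ.sat (NStr F A) v ↔ ∃ z : ℕ, (Fm.rel t).sat (NStr F A) (Fin.cons z v : Fin (n + 1) → ℕ)) ∧
          ∀ E : Fm ι 2, E.Bounded → (∀ x y : ℕ, E.sat (NStr F A) ![x, y] ↔ y = 2 ^ x) →
            ∀ (M : Type) (S : Str ι M), PiOne F A S → (∀ a : M, ∃ b : M, E.sat S ![a, b]) →
              ∀ v : Fin n → M, φ.sat S v ↔ ∃ z : M, (Fm.rel t).sat S (Fin.cons z v : Fin (n + 1) → M)) ∧
        ∀ q : ℕ, ∃ φ : Fm ι 1, φ.Bounded ∧ φ.NoFn ∧ ∀ (m : ℕ) (θ : Fm ι (m + 1)), θ.Bounded → θ.rk ≤ q →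
          ∃ (M : Type) (S : Str ι M), PiOne F A S ∧ IDelta0 S ∧ Coll S ∧
            ∃ x : M, ¬ (φ.sat S ![x] ↔ ∃ w : Fin (m + 1) → M, w (Fin.last m) = x ∧ θ.sat S w)) ∧
    (∀ (ι : Type) [Countable ι] (F : ι → ℕ → ℕ), (∀ i, Monotone (F i)) →
      ∃ B : ℕ → Bool, ∀ (n : ℕ) (φ : Fm ι n), φ.Bounded → ∃ t : Tm ι (Fin (n + 1)),
        ∀ (M : Type) (S : Str ι M), PiOne F B S →
          ∀ v : Fin n → M, φ.sat S v ↔ ∃ z : M, (Fm.rel t).sat S (Fin.cons z v : Fin (n + 1) → M)) ∧
    (∀ (ι : Type) (F : ι → ℕ → ℕ),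
      (∀ i, ∃ d : ℕ, ∀ y : ℕ, Nat.log 2 (F i y) ≤ (Nat.log 2 y + 2) ^ d) → Subexp F) :=
  ⟨fun _ _ F hm hF => Pool.Agent.Lib.P28o.worldA F hm hF, fun _ _ F hm => Pool.Agent.Lib.P28o.worldB F hm,
    fun _ F hF => subexp_of_polylog F hF⟩

end Pool.Agent.Results.MP_28b12e_lc.OracleWorlds
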